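import Pool.Agent.T2h11.MTP.Stm
import Pool.Agent.T2h11.MT.T_LIE

/-!
# LIEP: the Lie algebra of the image of the Galois group, for families
-/

set_option autoImplicit false

namespace Pool.Agent.T2h11.MTP.LIEP

open Module NumberField IsDedekindDomain TensorProduct Filter Topology
open Pool.Agent.W401.Cheb Pool.Agent.N184.HK Pool.Agent.T2h11.MT Pool.Agent.T2h11.MT.LIE

section

variable {Ω V : Type} [NormedField Ω] [AddCommGroup V] [Module Ω V] [FiniteDimensional Ω V]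

/-- the sum of the absolute values of the coefficients -/
noncomputable def nrm (A : Module.End Ω V) : ℝ := ∑ a, ∑ b, ‖ent a b A‖

lemma nrm_nonneg (A : Module.End Ω V) : 0 ≤ nrm A :=
  Finset.sum_nonneg fun _ _ => Finset.sum_nonneg fun _ _ => norm_nonneg _

lemma nrm_eq_zero {A B : Module.End Ω V} (h : nrm (A - B) = 0) : A = B := by
  refine ent_ext fun j k => ?_
  have h2 := (Finset.sum_eq_zero_iff_of_nonneg (fun _ _ => 
    Finset.sum_nonneg fun _ _ => norm_nonneg _)).1 h j (Finset.mem_univ j)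
  have h3 := (Finset.sum_eq_zero_iff_of_nonneg (fun _ _ => norm_nonneg _)).1 h2 k
    (Finset.mem_univ k)
  rw [norm_eq_zero, map_sub, sub_eq_zero] at h3
  exact h3

lemma nrm_le {A : Module.End Ω V} {δ : ℝ} (h : Small δ A) :
    nrm A ≤ ((finrank Ω V : ℝ) * finrank Ω V) * δ := by
  have h1 : nrm A ≤ ∑ _a : Fin (finrank Ω V), ∑ _b : Fin (finrank Ω V), δ :=
    Finset.sum_le_sum fun a _ => Finset.sum_le_sum fun b _ => h a b
  refine h1.trans (le_of_eq ?_)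
  simp only [Finset.sum_const, Finset.card_univ, Fintype.card_fin, nsmul_eq_mul]
  ring

lemma nrm_cont {Γ : Type} [TopologicalSpace Γ] {g : Γ → Module.End Ω V} (hg : Cts g) :
    Continuous fun σ => nrm (g σ - 1) := by
  refine continuous_finsetSum _ fun j _ => continuous_finsetSum _ fun k _ => ?_
  have h2 : (fun σ => ‖ent j k (g σ - 1)‖) =
      fun σ => ‖ent j k (g σ) - ent j k (1 : Module.End Ω V)‖ := by
    funext σ
    rw [map_sub]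
  rw [h2]
  exact ((hg _).sub continuous_const).norm

end

/-- lifting to an open subgroup -/
lemma lift {G : Type} [Group G] [TopologicalSpace G] [IsTopologicalGroup G] [CompactSpace G]
    (U : Subgroup G) (hU : IsOpen (U : Set G)) (N : Set G) (F : G → ℝ) (hF : Continuous F)
    (h0 : ∀ σ, 0 ≤ F σ) (hN : ∀ σ, F σ = 0 → σ ∈ N) :
    ∃ δ : ℝ, 0 < δ ∧ ∀ σ, F σ < δ → ∃ h ∈ N, h⁻¹ * σ ∈ U := by
  set O : Set G := {σ | ∃ h ∈ N, h⁻¹ * σ ∈ U} with hO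
  have hOo : IsOpen O := by
    have : O = ⋃ h ∈ N, (fun σ => h⁻¹ * σ) ⁻¹' (U : Set G) := by
      ext σ
      simp [hO]
    rw [this]
    exact isOpen_biUnion fun h _ => hU.preimage (continuous_const_mul _)
  rcases Set.eq_empty_or_nonempty Oᶜ with hemp | hne
  · refine ⟨1, one_pos, fun σ _ => ?_⟩
    by_contra h
    have h1 : σ ∈ Oᶜ := h
    rw [hemp] at h1
    exact h1
  · have hcomp : IsCompact Oᶜ := hOo.isClosed_compl.isCompact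
    obtain ⟨σ0, hσ0, hmin⟩ := hcomp.exists_isMinOn hne hF.continuousOn
    have hpos : 0 < F σ0 := by
      refine lt_of_le_of_ne (h0 _) fun h => hσ0 ⟨σ0, hN _ h.symm, ?_⟩
      rw [inv_mul_cancel]
      exact U.one_mem
    refine ⟨F σ0, hpos, fun σ hσ => ?_⟩
    by_contra h
    exact absurd (hmin (show σ ∈ Oᶜ from h)) (not_le.2 hσ)

variable {K : Type} [Field K] [NumberField K] {ℓ : ℕ} [Fact ℓ.Prime] {r : ℕ}

lemma near_lift' (X : Fin r → HKVariety K ℂ_[ℓ]) (M : HodgeGalois K ℓ) (U : Subgroup (GK K))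
    (hU : IsOpen (U : Set (GK K))) (J : Fin r → Finset ℕ) :
    ∃ δ : ℝ, 0 < δ ∧ ∀ σ : GK K, (∀ j, ∀ i : J j, Small δ ((X j).E.Φ σ i - 1)) →
      Small δ (M.Φ σ - 1) →
      ∃ τ ∈ U, (∀ j, ∀ i : J j, (X j).E.Φ τ i = (X j).E.Φ σ i) ∧ M.Φ τ = M.Φ σ := by
  classical
  set F : GK K → ℝ := fun σ => ∑ j, ∑ i : J j, nrm ((X j).E.Φ σ i - 1) + nrm (M.Φ σ - 1) with hFdef
  have hFc : Continuous F := by
    refine Continuous.add (continuous_finsetSum _ fun j _ => continuous_finsetSum _ fun i _ =>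
      nrm_cont ((X j).E.cont i)) (nrm_cont M.cont)
  have hs0 : ∀ σ, 0 ≤ ∑ j, ∑ i : J j, nrm ((X j).E.Φ σ i - 1) := fun σ =>
    Finset.sum_nonneg fun _ _ => Finset.sum_nonneg fun _ _ => nrm_nonneg _
  obtain ⟨δ, hδ, hl⟩ := lift U hU {h | (∀ j, ∀ i : J j, (X j).E.Φ h i = 1) ∧ M.Φ h = 1} F hFc
    (fun σ => add_nonneg (hs0 σ) (nrm_nonneg _)) (fun σ hσ => by
      have h1 := (add_eq_zero_iff_of_nonneg (hs0 σ) (nrm_nonneg _)).1 hσ
      refine ⟨fun j i => ?_, nrm_eq_zero h1.2⟩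
      have h2 := (Finset.sum_eq_zero_iff_of_nonneg (fun _ _ =>
        Finset.sum_nonneg fun _ _ => nrm_nonneg _)).1 h1.1 j (Finset.mem_univ j)
      have h3 := (Finset.sum_eq_zero_iff_of_nonneg (fun _ _ => nrm_nonneg _)).1 h2 i
        (Finset.mem_univ i)
      exact nrm_eq_zero h3)
  set C : ℝ := ∑ j, ∑ i : J j, ((finrank ℂ_[ℓ] ((X j).E.X.H i) : ℝ) *
    finrank ℂ_[ℓ] ((X j).E.X.H i)) + ((finrank ℂ_[ℓ] (ℂ_[ℓ] ⊗[ℚ] M.V) : ℝ) *
    finrank ℂ_[ℓ] (ℂ_[ℓ] ⊗[ℚ] M.V)) with hC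
  have hC0 : 0 ≤ C := by
    refine add_nonneg (Finset.sum_nonneg fun _ _ => Finset.sum_nonneg fun _ _ => ?_) ?_ <;>
      positivity
  refine ⟨δ / (C + 1), div_pos hδ (by linarith), fun σ h1 h2 => ?_⟩
  have h3 : F σ ≤ C * (δ / (C + 1)) := by
    rw [hC, add_mul, Finset.sum_mul]
    refine add_le_add (Finset.sum_le_sum fun j _ => ?_) (nrm_le h2)
    rw [Finset.sum_mul]
    exact Finset.sum_le_sum fun i _ => nrm_le (h1 j i)
  have h4 : C * (δ / (C + 1)) < δ := by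
    rw [mul_div_assoc', div_lt_iff₀ (by linarith)]
    nlinarith
  obtain ⟨h, ⟨hh1, hh2⟩, hh3⟩ := hl σ (h3.trans_lt h4)
  refine ⟨h⁻¹ * σ, hh3, fun j i => ?_, ?_⟩
  · have h5 : (X j).E.Φ σ i = (X j).E.Φ h i * (X j).E.Φ (h⁻¹ * σ) i := by
      rw [← Phi_mul, mul_inv_cancel_left]
    rw [h5, hh1 j i, one_mul]
  · have h5 : M.Φ σ = M.Φ h * M.Φ (h⁻¹ * σ) := by
      rw [← map_mul, mul_inv_cancel_left]
    rw [h5, hh2, one_mul]

lemma skew_smul {V : Type} {Ω : Type} [Field Ω] [AddCommGroup V] [Module Ω V]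
    {q : LinearMap.BilinForm Ω V} {A : Module.End Ω V} (hA : Skew q A) (x : Ω) :
    Skew q (x • A) := by
  intro u v
  have := hA u v
  rw [LinearMap.smul_apply, LinearMap.smul_apply, map_smul, map_smul, LinearMap.smul_apply,
    smul_eq_mul, smul_eq_mul, ← mul_add, this, mul_zero]

theorem t_LIEP (hE : S_EXP) (_hS : S_SXP) (hA : S_ACT) : S_LIEP := by
  classical
  intro K _ _ ℓ _ r X D M I hI Z
  -- the radii
  have hr : ∀ (j : Fin r) (i : ℕ), ∃ r : ℝ, 0 < r ∧ 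
      (∀ A B g h : Module.End ℂ_[ℓ] ((X j).E.X.H i), Small r A → Small r B → Commute A B →
        IsExp A g → IsExp B h → IsExp (A + B) (g * h)) ∧
      (∀ A B g : Module.End ℂ_[ℓ] ((X j).E.X.H i), Small r A → Small r B → IsExp A g →
        IsExp B g → A = B) ∧
      (∀ ε > (0 : ℝ), ∃ δ > (0 : ℝ), ∀ A g : Module.End ℂ_[ℓ] ((X j).E.X.H i), Small δ A →
        IsExp A g → Small ε (g - 1)) := by
    intro j i
    obtain ⟨r, hr, -, h1, h2, -, h3⟩ := hE ℓ ((X j).E.X.H i)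
    exact ⟨r, hr, h1, h2, h3⟩
  choose ρ hρ hadd hinj hsm using hr
  obtain ⟨rM, hrM, -, haddM, -, -, hsmM⟩ := hE ℓ (ℂ_[ℓ] ⊗[ℚ] M.V)
  have he : ∀ (j : Fin r) (i : ℕ), ∃ e : ℝ, 0 < e ∧
      ∀ (A : Module.End ℂ_[ℓ] ((X j).E.X.H 2)) (t : ℂ_[ℓ]),
      Small e A → ‖t‖ ≤ e → Small (ρ j i) (act (X j).E.X i A t) :=
    fun j i => small_act (X j).E.X i (hρ j i)
  choose e he hact using he
  have hη : ∀ j : Fin r, ∃ η : ℝ, 0 < η ∧ ∀ i ≤ (X j).d, η ≤ e j i := by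
    intro j
    have hne : (Finset.range ((X j).d + 1)).Nonempty := ⟨0, Finset.mem_range.2 (Nat.succ_pos _)⟩
    refine ⟨(Finset.range ((X j).d + 1)).inf' hne (e j), ?_, fun i hi => ?_⟩
    · rw [Finset.lt_inf'_iff]
      exact fun i _ => he j i
    · exact Finset.inf'_le _ (Finset.mem_range.2 (Nat.lt_succ_of_le hi))
  choose η hη hηe using hη
  have hU : ∀ j : Fin r, ∃ U : Subgroup (GK K), IsOpen (U : Set (GK K)) ∧ ∀ σ ∈ U,
      ∃ (A : Module.End ℂ_[ℓ] ((X j).E.X.H 2)) (t : ℂ_[ℓ]), Skew (X j).E.X.q A ∧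
      ∀ i ≤ (X j).d, Small (ρ j i) (act (X j).E.X i A t) ∧
        IsExp (act (X j).E.X i A t) ((X j).E.Φ σ i) := by
    intro j
    obtain ⟨U, hU, hUact⟩ := hA K ℓ (X j) (D j) (η j) (hη j)
    refine ⟨U, hU, fun σ hσ => ?_⟩
    obtain ⟨A, t, hA, hAs, ht, h⟩ := hUact σ hσ
    exact ⟨A, t, hA, fun i hi => ⟨hact j i A t (hAs.mono (hηe j i hi)) (ht.trans (hηe j i hi)),
      h i hi⟩⟩
  choose U hU hUact using hU
  set U₀ : Subgroup (GK K) := ⨅ j, U j with hU₀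
  have hU₀o : IsOpen (U₀ : Set (GK K)) := by
    rw [hU₀, Subgroup.coe_iInf]
    exact isOpen_iInter_of_finite hU
  have hUact' : ∀ σ ∈ U₀, ∃ (A : ∀ j, Module.End ℂ_[ℓ] ((X j).E.X.H 2)) (t : Fin r → ℂ_[ℓ]),
      ∀ j, Skew (X j).E.X.q (A j) ∧
      ∀ i ≤ (X j).d, Small (ρ j i) (act (X j).E.X i (A j) (t j)) ∧
        IsExp (act (X j).E.X i (A j) (t j)) ((X j).E.Φ σ i) := by
    intro σ hσ
    rw [hU₀, Subgroup.mem_iInf] at hσ
    choose A t h using fun j => hUact j σ (hσ j)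
    exact ⟨A, t, h⟩
  -- the elements of the image which are close to one
  have near : ∀ (J : Fin r → Finset ℕ), (∀ j, ∀ i ∈ J j, i ≤ (X j).d) → ∀ B : EndL X M J,
      B ∈ lieImage X M J → ∀ᶠ n : ℕ in atTop,
        ∃ (A : ∀ j, Module.End ℂ_[ℓ] ((X j).E.X.H 2)) (t : Fin r → ℂ_[ℓ]) (σ : GK K),
        (∀ j, Skew (X j).E.X.q (A j)) ∧
        (∀ j, ∀ i ≤ (X j).d, Small (ρ j i) (act (X j).E.X i (A j) (t j)) ∧
          IsExp (act (X j).E.X i (A j) (t j)) ((X j).E.Φ σ i)) ∧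
        Small rM ((ℓ : ℂ_[ℓ]) ^ n • B.2) ∧ IsExp ((ℓ : ℂ_[ℓ]) ^ n • B.2) (M.Φ σ) ∧
        ∀ j, ∀ i : J j, (ℓ : ℂ_[ℓ]) ^ n • B.1 j i = act (X j).E.X i (A j) (t j) := by
    intro J hJ B hB
    obtain ⟨n₀, hn₀⟩ := hB
    obtain ⟨δ, hδ, hlift⟩ := near_lift' X M U₀ hU₀o J
    have h1 : ∀ᶠ n : ℕ in atTop, ∀ j, ∀ i : J j, Small (ρ j i) ((ℓ : ℂ_[ℓ]) ^ n • B.1 j i) :=
      eventually_all.2 fun j => eventually_all.2 fun i => small_pow (B.1 j i) (hρ j i)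
    have h2 : ∀ᶠ n : ℕ in atTop, ∀ j, ∀ i : J j, ∀ g : Module.End ℂ_[ℓ] ((X j).E.X.H i),
        IsExp ((ℓ : ℂ_[ℓ]) ^ n • B.1 j i) g → Small δ (g - 1) := by
      refine eventually_all.2 fun j => eventually_all.2 fun i => ?_
      obtain ⟨δ', hδ', h⟩ := hsm j i δ hδ
      exact (small_pow (B.1 j i) hδ').mono fun n hn g hg => h _ g hn hg
    have h3 : ∀ᶠ n : ℕ in atTop, Small rM ((ℓ : ℂ_[ℓ]) ^ n • B.2) := small_pow B.2 hrM
    have h4 : ∀ᶠ n : ℕ in atTop, ∀ g : Module.End ℂ_[ℓ] (ℂ_[ℓ] ⊗[ℚ] M.V),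
        IsExp ((ℓ : ℂ_[ℓ]) ^ n • B.2) g → Small δ (g - 1) := by
      obtain ⟨δ', hδ', h⟩ := hsmM δ hδ
      exact (small_pow B.2 hδ').mono fun n hn g hg => h _ g hn hg
    filter_upwards [h1, h2, h3, h4, eventually_ge_atTop n₀] with n hn1 hn2 hn3 hn4 hn5
    obtain ⟨σ, hσ, hσM⟩ := hn₀ n hn5
    obtain ⟨τ, hτ, hτσ, hτM⟩ := hlift σ (fun j i => hn2 j i _ (hσ j i)) (hn4 _ hσM)
    obtain ⟨A, t, h⟩ := hUact' τ hτ
    refine ⟨A, t, τ, fun j => (h j).1, fun j => (h j).2, hn3, by rw [hτM]; exact hσM,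
      fun j i => ?_⟩
    have h3 := (h j).2 i (hJ j i i.2)
    rw [hτσ j i] at h3
    exact hinj j i _ _ _ (hn1 j i) h3.1 (hσ j i) h3.2
  have h2d : ∀ j : Fin r, ∀ i ∈ ({2} : Finset ℕ), i ≤ (X j).d := fun j i hi => by
    rw [Finset.mem_singleton.1 hi]; exact (X j).two_le
  constructor
  · intro hZ
    obtain ⟨n, A, t, σ, hAsk, hσ, hM1, hM2, hZn⟩ := (near I hI Z hZ).exists
    have hl : (ℓ : ℂ_[ℓ]) ^ n ≠ 0 := pow_ne_zero _ l_ne
    refine ⟨fun j => ((ℓ : ℂ_[ℓ]) ^ n)⁻¹ • A j, fun j => ((ℓ : ℂ_[ℓ]) ^ n)⁻¹ * t j,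
      fun j => skew_smul (hAsk j) _, ?_, ?_⟩
    · refine ⟨n, fun m hm => ⟨σ ^ (ℓ ^ (m - n)), fun j i => ?_, ?_⟩⟩
      · have hi := hσ j i (h2d j i i.2)
        have h1 := isExp_nsmul (hadd j i) hi.1 hi.2 (ℓ ^ (m - n))
        rw [Phi_pow]
        have h3 : (ℓ : ℂ_[ℓ]) ^ m • RR (X j).E.X {2} (((ℓ : ℂ_[ℓ]) ^ n)⁻¹ • A j)
            (((ℓ : ℂ_[ℓ]) ^ n)⁻¹ * t j) i =
              ((ℓ ^ (m - n) : ℕ) : ℂ_[ℓ]) • act (X j).E.X i (A j) (t j) := by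
          change (ℓ : ℂ_[ℓ]) ^ m • act (X j).E.X i (((ℓ : ℂ_[ℓ]) ^ n)⁻¹ • A j)
            (((ℓ : ℂ_[ℓ]) ^ n)⁻¹ * t j) = _
          rw [act_smul, smul_smul]
          congr 1
          rw [Nat.cast_pow, eq_comm, eq_mul_inv_iff_mul_eq₀ hl, ← pow_add, Nat.sub_add_cancel hm]
        change IsExp ((ℓ : ℂ_[ℓ]) ^ m • RR (X j).E.X {2} (((ℓ : ℂ_[ℓ]) ^ n)⁻¹ • A j)
            (((ℓ : ℂ_[ℓ]) ^ n)⁻¹ * t j) i) _
        rw [h3]
        exact h1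
      · have h1 := isExp_nsmul haddM hM1 hM2 (ℓ ^ (m - n))
        rw [map_pow]
        have h3 : (ℓ : ℂ_[ℓ]) ^ m • Z.2 = ((ℓ ^ (m - n) : ℕ) : ℂ_[ℓ]) • ((ℓ : ℂ_[ℓ]) ^ n • Z.2) := by
          rw [smul_smul, Nat.cast_pow, ← pow_add, Nat.sub_add_cancel hm]
        change IsExp ((ℓ : ℂ_[ℓ]) ^ m • Z.2) _
        rw [h3]
        exact h1
    · funext j i
      change Z.1 j i = act (X j).E.X i (((ℓ : ℂ_[ℓ]) ^ n)⁻¹ • A j) (((ℓ : ℂ_[ℓ]) ^ n)⁻¹ * t j)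
      rw [act_smul, ← hZn j i, smul_smul, inv_mul_cancel₀ hl, one_smul]
  · rintro ⟨A, t, hAsk, hR, hZ⟩
    have h1 := near (fun _ => {2}) h2d _ hR
    obtain ⟨n₁, hn₁⟩ := eventually_atTop.1 h1
    refine ⟨n₁, fun n hn => ?_⟩
    obtain ⟨A', t', σ, hA', hσ, -, hM, h⟩ := hn₁ n hn
    refine ⟨σ, fun j i => ?_, hM⟩
    have h2 : act (X j).E.X 2 ((ℓ : ℂ_[ℓ]) ^ n • A j) ((ℓ : ℂ_[ℓ]) ^ n * t j) =
        act (X j).E.X 2 (A' j) (t' j) := by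
      rw [act_smul]
      exact h j ⟨2, Finset.mem_singleton_self 2⟩
    obtain ⟨h3, h4⟩ := act_two_inj (X j).E.X (skew_smul (hAsk j) _) (hA' j) h2
    rw [hZ]
    change IsExp ((ℓ : ℂ_[ℓ]) ^ n • act (X j).E.X i (A j) (t j)) _
    rw [← act_smul, h3, h4]
    exact (hσ j i (hI j i i.2)).2

end Pool.Agent.T2h11.MTP.LIEP
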