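import Pool.Agent.T2h11.MTP.Stm
import Pool.Agent.T2h11.MT.T_MTL

/-!
# MTLP: the Lie algebra of the Mumford-Tate group, for families
-/

set_option autoImplicit false

namespace Pool.Agent.T2h11.MTP.MTLP

open Module NumberField IsDedekindDomain TensorProduct
open Pool.Agent.W401.Cheb Pool.Agent.N184.HK Pool.Agent.T2h11.MT Pool.Agent.T2h11.MT.MTL

variable {K : Type} [Field K] [NumberField K] {ℓ : ℕ} [Fact ℓ.Prime] {r : ℕ}
  {X : Fin r → HKVariety K ℂ_[ℓ]} (D : ∀ j, Realizations (X j)) (M : HodgeGalois K ℓ)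
  (I : Fin r → Finset ℕ)

/-- the product of the Lie algebras `so(H²) ⊕ ℚ` and `End M` -/
abbrev GG : Type := (∀ j, (so (D j).B.q) × ℚ) × Module.End ℚ M.V

/-- the bracket -/
def brP (x y : GG D M) : GG D M :=
  (fun j => br (D j).B (x.1 j) (y.1 j), x.2 * y.2 - y.2 * x.2)

/-- the action -/
noncomputable def fP : GG D M →ₗ[ℚ] EndB D M I :=
  LinearMap.prodMap (LinearMap.pi fun j => fI (D j).B (I j) ∘ₗ LinearMap.proj j) LinearMap.id

lemma fP_apply (x : GG D M) : fP D M I x = (fun j => fI (D j).B (I j) (x.1 j), x.2) := rfl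

lemma fP_br (x y : GG D M) :
    fP D M I (brP D M x y) = fP D M I x * fP D M I y - fP D M I y * fP D M I x := by
  rw [fP_apply, fP_apply, fP_apply]
  refine Prod.ext ?_ rfl
  funext j
  exact fI_br (D j).B (I j) (x.1 j) (y.1 j)

lemma exists_P : ∃ P : ℂ ⊗[ℚ] GG D M, ∀ I, hodge D M I = (fP D M I).baseChange ℂ P := by
  choose j0 hj0 using fun j => exists_j (D j)
  refine ⟨∑ j, (LinearMap.inl ℚ _ _ ∘ₗ
    LinearMap.single ℚ (fun j => (so (D j).B.q) × ℚ) j).baseChange ℂ (j0 j) +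
      (LinearMap.inr ℚ _ _).baseChange ℂ M.P, fun I => ?_⟩
  rw [map_add, map_sum, hodge]
  congr 1
  · refine Finset.sum_congr rfl fun j _ => ?_
    rw [hj0 j, ← LinearMap.comp_apply, ← LinearMap.comp_apply, ← LinearMap.baseChange_comp,
      ← LinearMap.baseChange_comp]
    congr 2
    refine LinearMap.ext fun x => ?_
    simp only [LinearMap.comp_apply, LinearMap.inl_apply, fP_apply]
    refine Prod.ext ?_ rfl
    funext k
    simp only
    by_cases h : k = j
    · subst h
      simp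
    · simp [h]
  · rw [← LinearMap.comp_apply, ← LinearMap.baseChange_comp]
    congr 2
    refine LinearMap.ext fun x => ?_
    simp only [LinearMap.comp_apply, LinearMap.inr_apply, fP_apply]
    refine Prod.ext ?_ rfl
    funext k
    simp

lemma RRs_eq (x : GG D M) : (fun j => fI (D j).B (I j) (x.1 j)) =
    RRs (fun j => (D j).B) I (fun j => (x.1 j).1.1) (fun j => (x.1 j).2) := by
  funext j
  exact fI_apply (D j).B (I j) (x.1 j)

theorem t_MTLP : S_MTLP := by
  intro K _ _ ℓ _ r X D M I Z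
  obtain ⟨P, hP⟩ := exists_P D M
  rw [hP I, hP (fun _ => {2}), mtLie_map (brP D M) P _ (fP_br D M I),
    mtLie_map (brP D M) P _ (fP_br D M fun _ => {2})]
  constructor
  · rintro ⟨x, hx, rfl⟩
    refine ⟨fun j => (x.1 j).1.1, fun j => (x.1 j).2, fun j => (x.1 j).1.2, ⟨x, hx, ?_⟩, ?_⟩
    · rw [fP_apply, RRs_eq]
      rfl
    · rw [fP_apply]
      exact RRs_eq D M I x
  · rintro ⟨A, t, hA, ⟨x, hx, h⟩, hZ⟩
    rw [fP_apply] at h
    have h1 := congrArg Prod.fst h
    have h2 : x.2 = Z.2 := congrArg Prod.snd h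
    have hxe : ∀ j, x.1 j = ((⟨A j, hA j⟩ : so (D j).B.q), t j) := by
      intro j
      apply fI_two_inj (D j).B
      refine (congrFun h1 j).trans ?_
      exact (fI_apply (D j).B {2} (⟨A j, hA j⟩, t j)).symm
    refine ⟨x, hx, ?_⟩
    rw [fP_apply]
    refine Prod.ext ?_ h2
    rw [hZ]
    funext j
    simp only
    rw [hxe j, fI_apply]
    rfl

end Pool.Agent.T2h11.MTP.MTLP
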