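import Pool.Agent.T2h11.MT.T_HQ
import Pool.Agent.T2h11.MT.T_UNI
import Pool.Agent.T2h11.MT.T_CAP
import Pool.Agent.T2h11.MT.T_BND
import Pool.Agent.T2h11.MT.T_INS
import Pool.Agent.T2h11.MT.T_CHR
import Pool.Agent.T2h11.MT.T_UNF
import Pool.Agent.T2h11.MT.T_UNR
import Pool.Agent.T2h11.MT.T_UNP
import Pool.Agent.T2h11.MT.T_KOL
import Pool.Agent.T2h11.MT.T_RAT
import Pool.Agent.T2h11.MT.T_INR
import Pool.Agent.T2h11.MT.T_TRV
import Pool.Agent.T2h11.MT.T_ONE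
import Pool.Agent.T2h11.MT.T_SIM
import Pool.Agent.T2h11.MT.T_ACT
import Pool.Agent.Z15.E.MT
import Pool.Agent.T2h11.MTP.T_MTLP
import Pool.Agent.T2h11.MTP.T_LIEP

/-!
# The Mumford-Tate conjecture for products of hyperkähler varieties: the conclusion
-/

set_option autoImplicit false

namespace Pool.Agent.T2h11.MTP

open Module NumberField IsDedekindDomain TensorProduct
open Pool.Agent.W401.Cheb Pool.Agent.N184.HK Pool.Agent.T2h11.MT Pool.Agent.Z15.E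

theorem s_BND : S_BND := BND.t_BND HQ.t_HQ UNI.t_UNI CAP.t_CAP

theorem s_UNR : S_UNR := UNR.t_UNR (UNF.t_UNF s_BND INS.t_INS CHR.t_CHR)

theorem s_TRV : S_TRV := TRV.t_TRV UNP.t_UNP KOL.t_KOL (INR.t_INR RAT.t_RAT) s_UNR

theorem s_ONE : S_ONE := ONE.t_ONE t_EXP t_SXP t_DET t_CNJ

theorem s_ACT : S_ACT := ACT.t_ACT s_TRV (SIM.t_SIM t_EXP t_SXP) s_ONE

theorem s_LIEP : S_LIEP := LIEP.t_LIEP t_EXP t_SXP s_ACT

/-- An open subgroup of the Galois group acts through exponentials. -/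
theorem acts {K : Type} [Field K] [NumberField K] {ℓ : ℕ} [Fact ℓ.Prime] (X : HKVariety K ℂ_[ℓ])
    (D : Realizations X) :
    ∃ U : Subgroup (GK K), IsOpen (U : Set (GK K)) ∧ ∀ σ ∈ U, ActsThroughExp X σ := by
  obtain ⟨U, hU, h⟩ := s_ACT K ℓ X D 1 one_pos
  refine ⟨U, hU, fun σ hσ => ?_⟩
  obtain ⟨A, t, h1, -, -, h2⟩ := h σ hσ
  exact ⟨A, t, h1, h2⟩

end Pool.Agent.T2h11.MTP
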