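import Pool.Agent.T2h11.MT.Defs

/-!
# The Mumford-Tate conjecture for products of hyperkähler varieties: definitions
-/

set_option autoImplicit false

namespace Pool.Agent.T2h11.MTP

open Module NumberField IsDedekindDomain TensorProduct
open Pool.Agent.W401.Cheb Pool.Agent.N184.HK Pool.Agent.T2h11.MT

/-- A Hodge structure and a continuous representation of the absolute Galois group of `K` on the same
rational vector space `V`, for example the cohomology of a smooth projective variety over `K`: the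
operator `P` acts as `p` on `V^{p,q}`, and the Galois group acts on `ℂ_ℓ ⊗ V`. -/
structure HodgeGalois (K : Type) [Field K] [NumberField K] (ℓ : ℕ) [Fact ℓ.Prime] where
  V : Type
  [grp : AddCommGroup V]
  [mod : Module ℚ V]
  [fin : FiniteDimensional ℚ V]
  P : ℂ ⊗[ℚ] Module.End ℚ V
  Φ : GK K →* Module.End ℂ_[ℓ] (ℂ_[ℓ] ⊗[ℚ] V)
  cont : Cts Φ

attribute [instance] HodgeGalois.grp HodgeGalois.mod HodgeGalois.fin

variable {K : Type} [Field K] [NumberField K] {ℓ : ℕ} [Fact ℓ.Prime] {r : ℕ}

section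

variable (X : Fin r → HKVariety K ℂ_[ℓ]) (M : HodgeGalois K ℓ) (I : Fin r → Finset ℕ)

/-- The endomorphisms of the `ℓ`-adic cohomology: of the `H^i(X j)` for `i` in `I j`, and of `M`. -/
abbrev EndL : Type :=
  (∀ j, ∀ i : I j, Module.End ℂ_[ℓ] ((X j).E.X.H i)) × Module.End ℂ_[ℓ] (ℂ_[ℓ] ⊗[ℚ] M.V)

/-- The Lie algebra of the image of the Galois group in the automorphisms of the sum of `M` and of the
`H^i(X j)` for `i` in `I j`, as an `ℓ`-adic Lie group: the `A` with `exp (ℓ ^ n A)` in the image for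
all large `n`. -/
def lieImage : Set (EndL X M I) :=
  {A | ∃ n₀, ∀ n ≥ n₀, ∃ σ : GK K,
    (∀ j i, IsExp ((ℓ : ℂ_[ℓ]) ^ n • A.1 j i) ((X j).E.Φ σ i)) ∧
      IsExp ((ℓ : ℂ_[ℓ]) ^ n • A.2) (M.Φ σ)}

end

section

variable {X : Fin r → HKVariety K ℂ_[ℓ]} (D : ∀ j, Realizations (X j)) (M : HodgeGalois K ℓ)
  (I : Fin r → Finset ℕ)

/-- The endomorphisms of the rational cohomology: of the `H^i(X j)` for `i` in `I j`, and of `M`. -/
abbrev EndB : Type :=
  (∀ j, ∀ i : I j, Module.End ℚ ((D j).B.H i)) × Module.End ℚ M.V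

/-- The operator on the sum of `M` and of the `H^i(X j)`, for `i` in `I j`, which acts as `p` on the
part of type `(p, q)`. -/
noncomputable def hodge : ℂ ⊗[ℚ] EndB D M I :=
  ∑ j, (LinearMap.inl ℚ _ _ ∘ₗ
    LinearMap.single ℚ (fun j => ∀ i : I j, Module.End ℚ ((D j).B.H i)) j).baseChange ℂ
      ((D j).hodge (I j)) + (LinearMap.inr ℚ _ _).baseChange ℂ M.P

/-- The scalar extension of an endomorphism of the rational cohomology. -/
noncomputable def ext (A : EndB D M I) : EndL X M I :=
  (fun j => (D j).ext (I j) (A.1 j), A.2.baseChange ℂ_[ℓ])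

/-- The Mumford-Tate conjecture for the sum of `M` and of the `H^i(X j)`, for `i` in `I j`: the Lie
algebra of the image of the Galois group is the `ℚ_ℓ`-span of the Lie algebra of the Mumford-Tate
group. -/
def MumfordTate : Prop :=
  lieImage X M I = {A | A ∈ Submodule.span (algebraMap ℚ_[ℓ] ℂ_[ℓ]).range
    (ext D M I '' (mtLie (hodge D M I) : Set (EndB D M I)))}

end

end Pool.Agent.T2h11.MTP
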