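import Pool.Agent.T2h11.MTP.Defs
import Pool.Agent.T2h11.MT.Stm

/-!
# The Mumford-Tate conjecture for products of hyperkähler varieties: statements of the tasks
-/

set_option autoImplicit false

namespace Pool.Agent.T2h11.MTP

open Module NumberField IsDedekindDomain TensorProduct
open Pool.Agent.W401.Cheb Pool.Agent.N184.HK Pool.Agent.T2h11.MT

/-- The action of the elements `A j + t j` of `so(H²(X j)) ⊕ K` on the sum of the `H^i(X j)`, for `i` in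
`I j`. -/
def RRs {K : Type} [Field K] {r : ℕ} {d : Fin r → ℕ} {c : Fin r → ℚ}
    (Y : ∀ j, Cohomology K (d j) (c j)) (I : Fin r → Finset ℕ)
    (A : ∀ j, Module.End K ((Y j).H 2)) (t : Fin r → K) :
    ∀ j, ∀ i : I j, Module.End K ((Y j).H i) :=
  fun j => RR (Y j) (I j) (A j) (t j)

/-- LIEP: the Lie algebra of the image of the Galois group. -/
def S_LIEP : Prop := ∀ (K : Type) [Field K] [NumberField K] (ℓ : ℕ) [Fact ℓ.Prime] (r : ℕ)
  (X : Fin r → HKVariety K ℂ_[ℓ]) (_ : ∀ j, Realizations (X j)) (M : HodgeGalois K ℓ)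
  (I : Fin r → Finset ℕ), (∀ j, ∀ i ∈ I j, i ≤ (X j).d) →
  ∀ Z : EndL X M I, Z ∈ lieImage X M I ↔
    ∃ (A : ∀ j, Module.End ℂ_[ℓ] ((X j).E.X.H 2)) (t : Fin r → ℂ_[ℓ]),
      (∀ j, Skew (X j).E.X.q (A j)) ∧
      ((RRs (fun j => (X j).E.X) (fun _ => {2}) A t, Z.2) : EndL X M fun _ => {2}) ∈
        lieImage X M (fun _ => {2}) ∧
      Z.1 = RRs (fun j => (X j).E.X) I A t

/-- MTLP: the Lie algebra of the Mumford-Tate group. -/
def S_MTLP : Prop := ∀ (K : Type) [Field K] [NumberField K] (ℓ : ℕ) [Fact ℓ.Prime] (r : ℕ)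
  (X : Fin r → HKVariety K ℂ_[ℓ]) (D : ∀ j, Realizations (X j)) (M : HodgeGalois K ℓ)
  (I : Fin r → Finset ℕ) (Z : EndB D M I), Z ∈ mtLie (hodge D M I) ↔
    ∃ (A : ∀ j, Module.End ℚ ((D j).B.H 2)) (t : Fin r → ℚ),
      (∀ j, Skew (D j).B.q (A j)) ∧
      ((RRs (fun j => (D j).B) (fun _ => {2}) A t, Z.2) : EndB D M fun _ => {2}) ∈
        mtLie (hodge D M fun _ => {2}) ∧
      Z.1 = RRs (fun j => (D j).B) I A t

/-- FINP: the conclusion. -/
def S_FINP : Prop := ∀ (K : Type) [Field K] [NumberField K] (ℓ : ℕ) [Fact ℓ.Prime] (r : ℕ)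
  (X : Fin r → HKVariety K ℂ_[ℓ]) (D : ∀ j, Realizations (X j)) (M : HodgeGalois K ℓ)
  (I : Fin r → Finset ℕ), (∀ j, ∀ i ∈ I j, i ≤ (X j).d) →
  MumfordTate D M (fun _ => {2}) → MumfordTate D M I

end Pool.Agent.T2h11.MTP
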