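import Pool.Agent.T2h11.MTP.Stm
import Pool.Agent.T2h11.MT.T_FIN

/-!
# FINP: the conclusion for products
-/

set_option autoImplicit false

namespace Pool.Agent.T2h11.MTP.FINP

open Module NumberField IsDedekindDomain TensorProduct
open Pool.Agent.W401.Cheb Pool.Agent.N184.HK Pool.Agent.T2h11.MT Pool.Agent.T2h11.MT.FIN

section

variable {K : Type} [Field K] {r : ℕ} {d : Fin r → ℕ} {c : Fin r → ℚ}
  (Y : ∀ j, Cohomology K (d j) (c j)) (I : Fin r → Finset ℕ)

lemma RRs_add (A A' : ∀ j, Module.End K ((Y j).H 2)) (t t' : Fin r → K) :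
    RRs Y I (A + A') (t + t') = RRs Y I A t + RRs Y I A' t' := by
  funext j
  exact RR_add (Y j) (I j) (A j) (A' j) (t j) (t' j)

lemma RRs_zero : RRs Y I 0 0 = 0 := by
  funext j
  exact RR_zero (Y j) (I j)

lemma RRs_smul (s : K) (A : ∀ j, Module.End K ((Y j).H 2)) (t : Fin r → K) :
    RRs Y I (fun j => s • A j) (fun j => s * t j) = s • RRs Y I A t := by
  funext j
  exact RR_smul (Y j) (I j) s (A j) (t j)

end

variable {K : Type} [Field K] [NumberField K] {ℓ : ℕ} [Fact ℓ.Prime] {r : ℕ}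
  {X : Fin r → HKVariety K ℂ_[ℓ]} (D : ∀ j, Realizations (X j)) (M : HodgeGalois K ℓ)

lemma ext_RRs (I : Fin r → Finset ℕ) (A : ∀ j, Module.End ℚ ((D j).B.H 2)) (t : Fin r → ℚ)
    (z : Module.End ℚ M.V) :
    ext D M I (RRs (fun j => (D j).B) I A t, z) =
      (RRs (fun j => (X j).E.X) I (fun j => up (D j) (A j))
        (fun j => algebraMap ℚ ℂ_[ℓ] (t j)), z.baseChange ℂ_[ℓ]) := by
  refine Prod.ext ?_ rfl
  funext j
  exact ext_RR (D j) (I j) (A j) (t j)

variable (I : Fin r → Finset ℕ)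

/-- the span of the Lie algebra of the Mumford-Tate group -/
noncomputable def sp : Submodule (algebraMap ℚ_[ℓ] ℂ_[ℓ]).range (EndL X M I) :=
  Submodule.span (algebraMap ℚ_[ℓ] ℂ_[ℓ]).range
    (ext D M I '' (mtLie (hodge D M I) : Set (EndB D M I)))

lemma sp_iff (hM : S_MTLP) (Z : EndL X M I) : Z ∈ sp D M I ↔
    ∃ (A : ∀ j, Module.End ℂ_[ℓ] ((X j).E.X.H 2)) (t : Fin r → ℂ_[ℓ]),
      (∀ j, Skew (X j).E.X.q (A j)) ∧
      ((RRs (fun j => (X j).E.X) (fun _ => {2}) A t, Z.2) : EndL X M fun _ => {2}) ∈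
        sp D M (fun _ => {2}) ∧
      Z.1 = RRs (fun j => (X j).E.X) I A t := by
  constructor
  · intro h
    refine Submodule.span_induction (p := fun Z _ =>
      ∃ (A : ∀ j, Module.End ℂ_[ℓ] ((X j).E.X.H 2)) (t : Fin r → ℂ_[ℓ]),
      (∀ j, Skew (X j).E.X.q (A j)) ∧
      ((RRs (fun j => (X j).E.X) (fun _ => {2}) A t, Z.2) : EndL X M fun _ => {2}) ∈
        sp D M (fun _ => {2}) ∧
      Z.1 = RRs (fun j => (X j).E.X) I A t) ?_ ?_ ?_ ?_ h
    · rintro _ ⟨⟨m, z⟩, hm, rfl⟩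
      obtain ⟨A, t, hA, h2, h3⟩ := (hM K ℓ r X D M I (m, z)).1 hm
      simp only at h3
      subst h3
      refine ⟨fun j => up (D j) (A j), fun j => algebraMap ℚ ℂ_[ℓ] (t j),
        fun j => up_skew (D j) (hA j), ?_, ?_⟩
      · rw [ext_RRs]
        have e := ext_RRs D M (fun _ => {2}) A t z
        rw [← e]
        exact Submodule.subset_span ⟨_, h2, rfl⟩
      · rw [ext_RRs]
    · refine ⟨0, 0, fun j => (so (X j).E.X.q).zero_mem, ?_, (RRs_zero _ _).symm⟩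
      rw [RRs_zero]
      exact Submodule.zero_mem _
    · rintro ⟨Z1, z⟩ ⟨Z1', z'⟩ _ _ ⟨A, t, hA, h2, h3⟩ ⟨A', t', hA', h2', h3'⟩
      simp only at h3 h3' h2 h2'
      subst h3 h3'
      refine ⟨A + A', t + t', fun j => skew_add _ (hA j) (hA' j), ?_,
        (RRs_add _ _ _ _ _ _).symm⟩
      rw [RRs_add]
      exact Submodule.add_mem _ h2 h2'
    · rintro s ⟨Z1, z⟩ _ ⟨A, t, hA, h2, h3⟩
      simp only at h3 h2
      subst h3
      refine ⟨fun j => (s : ℂ_[ℓ]) • A j, fun j => (s : ℂ_[ℓ]) * t j,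
        fun j => skew_smul _ _ (hA j), ?_, ?_⟩
      · rw [RRs_smul]
        exact Submodule.smul_mem _ s h2
      · rw [RRs_smul]
        rfl
  · obtain ⟨Z1, z⟩ := Z
    rintro ⟨A, t, hA, h2, h3⟩
    simp only at h2 h3
    subst h3
    have key : ∀ P ∈ sp D M (fun _ => {2}),
        ∃ (A : ∀ j, Module.End ℂ_[ℓ] ((X j).E.X.H 2)) (t : Fin r → ℂ_[ℓ]),
        (∀ j, Skew (X j).E.X.q (A j)) ∧ P.1 = RRs (fun j => (X j).E.X) (fun _ => {2}) A t ∧
        ((RRs (fun j => (X j).E.X) I A t, P.2) : EndL X M I) ∈ sp D M I := by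
      intro P hP
      refine Submodule.span_induction (p := fun P _ =>
        ∃ (A : ∀ j, Module.End ℂ_[ℓ] ((X j).E.X.H 2)) (t : Fin r → ℂ_[ℓ]),
        (∀ j, Skew (X j).E.X.q (A j)) ∧ P.1 = RRs (fun j => (X j).E.X) (fun _ => {2}) A t ∧
        ((RRs (fun j => (X j).E.X) I A t, P.2) : EndL X M I) ∈ sp D M I) ?_ ?_ ?_ ?_ hP
      · rintro _ ⟨⟨m, z⟩, hm, rfl⟩
        obtain ⟨A, t, hA, h2, h3⟩ := (hM K ℓ r X D M (fun _ => {2}) (m, z)).1 hm
        simp only at h3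
        subst h3
        refine ⟨fun j => up (D j) (A j), fun j => algebraMap ℚ ℂ_[ℓ] (t j),
          fun j => up_skew (D j) (hA j), ?_, ?_⟩
        · rw [ext_RRs]
        · rw [ext_RRs]
          have e := ext_RRs D M I A t z
          rw [← e]
          exact Submodule.subset_span ⟨_, (hM K ℓ r X D M I _).2 ⟨A, t, hA, h2, rfl⟩, rfl⟩
      · refine ⟨0, 0, fun j => (so (X j).E.X.q).zero_mem, (RRs_zero _ _).symm, ?_⟩
        rw [RRs_zero]
        exact Submodule.zero_mem _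
      · rintro ⟨Z1, z⟩ ⟨Z1', z'⟩ _ _ ⟨A, t, hA, h3, h2⟩ ⟨A', t', hA', h3', h2'⟩
        simp only at h3 h3' h2 h2'
        subst h3 h3'
        refine ⟨A + A', t + t', fun j => skew_add _ (hA j) (hA' j),
          (RRs_add _ _ _ _ _ _).symm, ?_⟩
        rw [RRs_add]
        exact Submodule.add_mem _ h2 h2'
      · rintro s ⟨Z1, z⟩ _ ⟨A, t, hA, h3, h2⟩
        simp only at h3 h2
        subst h3
        refine ⟨fun j => (s : ℂ_[ℓ]) • A j, fun j => (s : ℂ_[ℓ]) * t j,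
          fun j => skew_smul _ _ (hA j), ?_, ?_⟩
        · rw [RRs_smul]
          rfl
        · rw [RRs_smul]
          exact Submodule.smul_mem _ s h2
    obtain ⟨A', t', hA', h1, h3⟩ := key _ h2
    have h4 : ∀ j, A j = A' j ∧ t j = t' j := fun j =>
      MTL.RR_two_inj (X j).E.X (hA j) (hA' j) (congrFun h1 j)
    obtain rfl : A = A' := funext fun j => (h4 j).1
    obtain rfl : t = t' := funext fun j => (h4 j).2
    exact h3

theorem t_FINP (hL : S_LIEP) (hM : S_MTLP) : S_FINP := by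
  intro K _ _ ℓ _ r X D M I hI h2
  have h2' : ∀ Z, Z ∈ lieImage X M (fun _ => {2}) ↔ Z ∈ sp D M (fun _ => {2}) := fun Z => by
    rw [h2]
    rfl
  change lieImage X M I = {A | A ∈ sp D M I}
  ext Z
  rw [hL K ℓ r X D M I hI Z, Set.mem_ofPred_eq, sp_iff D M I hM Z]
  simp only [h2']

end Pool.Agent.T2h11.MTP.FINP
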